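import Mathlib
import Pool.Agent.R365.ST.Main

set_option autoImplicit false

/-!
# The minimal discriminant and the conductor
-/

namespace Pool.Agent.R365.SZ

open NumberField IsDedekindDomain Finset
open Pool.Agent.H691R3 (fv fv_na fv_zpow Nv)
open Pool.Agent.TH876.Loc
open Pool.Agent.TH876.FH (IsPeriod FullTwo arch faltings)
open Pool.Agent.Y729.AH
open Pool.Agent.Y729.AE (discExp disc_support)
open Pool.Agent.Y729.FW (lp lp_nonneg lp_support)
open Pool.Agent.R365.CV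
open Pool.Agent.R365.ST (HiF many log_cond_ge)

/-- the norm of the minimal discriminant -/
noncomputable def md {K : Type} [Field K] [NumberField K] (E : WeierstrassCurve K) : ℝ :=
  ∏ᶠ v : HeightOneSpectrum (𝓞 K), (Ideal.absNorm v.asIdeal : ℝ) ^ discExp v E

theorem log_md {K : Type} [Field K] [NumberField K] {E : WeierstrassCurve K} (hE : E.Δ ≠ 0) :
    0 < md E ∧ Real.log (md E) = ∑ᶠ v : HeightOneSpectrum (𝓞 K),
      (discExp v E : ℝ) * Real.log (Ideal.absNorm v.asIdeal : ℝ) := by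
  have hfin := disc_support E hE
  have hNpos : ∀ v : HeightOneSpectrum (𝓞 K), 1 < (Ideal.absNorm v.asIdeal : ℝ) :=
    fun v => Pool.Agent.Y729.AE.one_lt_N v
  have hsub : (Function.mulSupport fun v : HeightOneSpectrum (𝓞 K) =>
      (Ideal.absNorm v.asIdeal : ℝ) ^ discExp v E) ⊆ hfin.toFinset := by
    intro v hv
    rw [Function.mem_mulSupport] at hv
    rw [Finset.mem_coe, Set.Finite.mem_toFinset, Function.mem_support]
    intro h0
    apply hv
    rcases mul_eq_zero.1 h0 with h | h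
    · have : discExp v E = 0 := by exact_mod_cast h
      rw [this, pow_zero]
    · exact absurd h (Real.log_pos (hNpos v)).ne'
  have h1 : md E = ∏ v ∈ hfin.toFinset, (Ideal.absNorm v.asIdeal : ℝ) ^ discExp v E :=
    finprod_eq_prod_of_mulSupport_subset _ hsub
  have h2 : ∑ᶠ v : HeightOneSpectrum (𝓞 K),
      (discExp v E : ℝ) * Real.log (Ideal.absNorm v.asIdeal : ℝ) =
      ∑ v ∈ hfin.toFinset, (discExp v E : ℝ) * Real.log (Ideal.absNorm v.asIdeal : ℝ) :=
    finsum_eq_sum_of_support_subset _ (by rw [Set.Finite.coe_toFinset])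
  have hp : ∀ v ∈ hfin.toFinset, (Ideal.absNorm v.asIdeal : ℝ) ^ discExp v E ≠ 0 :=
    fun v _ => pow_ne_zero _ (by linarith [hNpos v])
  refine ⟨?_, ?_⟩
  · rw [h1]
    exact Finset.prod_pos fun v _ => pow_pos (by linarith [hNpos v]) _
  · rw [h1, h2, Real.log_prod hp]
    refine Finset.sum_congr rfl fun v _ => ?_
    rw [Real.log_pow]

/-- the square of the conductor is at most the discriminant -/
theorem md_ge {K : Type} [Field K] [NumberField K] {E : WeierstrassCurve K} (hE : E.Δ ≠ 0)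
    (h2 : FullTwo E) : cond E ^ 2 ≤ md E := by
  classical
  obtain ⟨a, b, hp⟩ := pm_of_two h2
  obtain ⟨hm, hl⟩ := log_md hE
  obtain ⟨-, k3, k4⟩ := cond_bounds hE hp
  have hPt : Pt (-(b / a)) := (sp_iff hp.1 hp.2.1 hp.2.2.1).1
  have k1 := (disc_sum hE hp).1
  rw [jj_pm hp] at k1
  have k2 := sum_lp_ge hPt ∅ (fun _ => 0) (fun v hv => absurd hv (Finset.notMem_empty v))
  rw [Finset.sum_empty, mul_zero, add_zero] at k2
  have hD : 0 ≤ Real.log (nn (AA E)) := Real.log_nonneg (one_le_nn _)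
  have hc0 : 0 < cond E := by linarith
  rw [← Real.log_le_log_iff (by positivity) hm, Real.log_pow, hl]
  push_cast
  linarith

/-- the classes with large discriminant -/
def Big (K : Type) [Field K] [NumberField K] (T X : ℝ) : Set (Iso K) :=
  {q | ∃ E : WeierstrassCurve K, cl E = q ∧ E.Δ ≠ 0 ∧ FullTwo E ∧ cond E ≤ X ∧
    T * cond E ^ 2 ≤ md E}

/-- **few classes with large discriminant** -/
theorem big_upper (K : Type) [Field K] [NumberField K] (s : ℝ) (hs0 : 0 ≤ s) (hs1 : s < 1 / 6) :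
    ∃ C ν : ℝ, 0 < C ∧ 0 < ν ∧ ∀ X T : ℝ, 1 ≤ X → 1 ≤ T →
      ((Big K T X).ncard : ℝ) ≤ C * (T ^ (-s) + X ^ (-ν)) * X ^ (2 / 3 : ℝ) := by
  classical
  obtain ⟨C, ν, hC, hν, h⟩ := curve_tail K (2 * s) (by positivity) (by linarith)
  obtain ⟨cB, hcB, hB⟩ := sum_lp_le
  obtain ⟨C1, hC1⟩ : ∃ C1 : ℝ, C1 = (cB * Module.finrank ℚ K + |CT K|) / 2 := ⟨_, rfl⟩
  have hC10 : 0 ≤ C1 := by rw [hC1]; positivity
  refine ⟨C * Real.exp (2 * s * C1), ν, by positivity, hν, fun X T hX hT => ?_⟩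
  have hX0 : 0 < X := by linarith
  have hT0 : 0 < T := by linarith
  have h1 : ((Big K T X).ncard : ℝ) ≤
      C * (Real.exp (-(2 * s * (Real.log T / 2 - C1))) + X ^ (-ν)) * X ^ (2 / 3 : ℝ) := by
    refine (fin_of_bound _ _ fun Q hQ => h X (Real.log T / 2 - C1) hX Q fun q hq => ?_).2
    obtain ⟨E, h1, h2, h3, h4, h5⟩ := hQ hq
    obtain ⟨a, b, hp⟩ := pm_of_two h3
    refine ⟨E, a, b, h1, h2, hp, h4, ?_⟩
    have hPt : Pt (-(b / a)) := (sp_iff hp.1 hp.2.1 hp.2.2.1).1
    obtain ⟨hm, hl⟩ := log_md h2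
    have k0 : 1 ≤ cond E := (cond_bounds h2 hp).2.2
    have hc0 : 0 < cond E := by linarith
    have k1 := Real.log_le_log (by positivity) h5
    rw [Real.log_mul hT0.ne' (by positivity), Real.log_pow, hl] at k1
    push_cast at k1
    have k2 := (disc_sum h2 hp).2
    rw [jj_pm hp] at k2
    have k3 := hB K _ hPt
    have k4 := logHeight_le hPt
    have k5 := log_cond_ge h2 hp
    have k6 : Real.log (nn (AA E)) = Real.log (nn (AA E ∩ sp (-(b / a)))) +
        Real.log (nn (AA E \ sp (-(b / a)))) := by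
      rw [← Real.log_mul (nn_pos _).ne' (nn_pos _).ne',
        ← nn_union (Finset.disjoint_sdiff_inter _ _).symm, iu_sdiff]
    have k7 := le_abs_self (CT K)
    have k8 : Real.log T / 2 - C1 ≤ 3 * hgt (-(b / a)) -
          Real.log (nn (sp (-(b / a)) \ T2 K)) +
          2 * Real.log (nn (AA E ∩ sp (-(b / a)))) + Real.log (nn (AA E \ sp (-(b / a)))) := by
      rw [hC1]
      linarith
    convert k8
  refine h1.trans ?_
  have e1 : Real.exp (-(2 * s * (Real.log T / 2 - C1))) = Real.exp (2 * s * C1) * T ^ (-s) := by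
    rw [Real.rpow_def_of_pos hT0, ← Real.exp_add]
    congr 1
    ring
  have e2 : 1 ≤ Real.exp (2 * s * C1) := Real.one_le_exp (by positivity)
  have e3 : 0 < X ^ (-ν) := by positivity
  rw [e1]
  refine mul_le_mul_of_nonneg_right ?_ (by positivity)
  rw [mul_assoc C]
  refine mul_le_mul_of_nonneg_left ?_ hC.le
  nlinarith

/-- **many classes with large discriminant** -/
theorem big_lower (K : Type) [Field K] [NumberField K] : ∃ c : ℝ, 0 < c ∧
    ∀ X T : ℝ, 1 ≤ T → T ≤ c * X ^ 4 → 0 ≤ X →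
      c * T ^ (-(1 / 6) : ℝ) * X ^ (2 / 3 : ℝ) ≤ ((Big K T X).ncard : ℝ) := by
  classical
  obtain ⟨c0, C, hc0, hC, h⟩ := many K
  obtain ⟨C2, hC2, hsharp⟩ := cl2_sharp K
  obtain ⟨C', hC'⟩ : ∃ C', C' = max 1 C := ⟨_, rfl⟩
  have hC'1 : 1 ≤ C' := by rw [hC']; exact le_max_left _ _
  have hC'C : C ≤ C' := by rw [hC']; exact le_max_right _ _
  have hC'0 : 0 < C' := by linarith
  refine ⟨min c0 ((C' ^ 4)⁻¹), by positivity, fun X T hT hTX hX0 => ?_⟩
  have hT0 : 0 < T := by linarith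
  have hX4 : C' ^ 4 * T ≤ X ^ 4 := by
    have h1 : T ≤ (C' ^ 4)⁻¹ * X ^ 4 :=
      hTX.trans (mul_le_mul_of_nonneg_right (min_le_right _ _) (by positivity))
    rw [← div_eq_inv_mul, le_div_iff₀ (by positivity)] at h1
    linarith
  have hX : C' * T ^ (1 / 4 : ℝ) ≤ X := by
    refine le_of_pow_le_pow_left₀ (n := 4) (by norm_num) hX0 ?_
    rw [mul_pow, ← Real.rpow_natCast (T ^ (1 / 4 : ℝ)), ← Real.rpow_mul hT0.le]
    norm_num
    exact hX4
  have hT4 : 1 ≤ T ^ (1 / 4 : ℝ) := Real.one_le_rpow hT (by norm_num)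
  have hX1 : 1 ≤ X := by
    refine le_trans ?_ hX
    nlinarith
  have e1 : Real.exp (3 * (Real.log T / 12)) = T ^ (1 / 4 : ℝ) := by
    rw [Real.rpow_def_of_pos hT0]
    congr 1
    ring
  have e2 : Real.exp (-(2 * (Real.log T / 12))) = T ^ (-(1 / 6) : ℝ) := by
    rw [Real.rpow_def_of_pos hT0]
    congr 1
    ring
  have h1 := h X (Real.log T / 12) (div_nonneg (Real.log_nonneg hT) (by norm_num)) (by
    rw [e1]
    exact (mul_le_mul_of_nonneg_right hC'C (by positivity)).trans hX)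
  rw [e2] at h1
  have hfin : (Big K T X).Finite := by
    refine (hsharp X hX1).1.subset ?_
    rintro q ⟨E, g1, g2, g3, g4, g5⟩
    exact ⟨E, g1, g2, g3, g4⟩
  have h2 : (HiF K (Real.log T / 12) X).ncard ≤ (Big K T X).ncard := by
    refine Set.ncard_le_ncard ?_ hfin
    rintro q ⟨E, g1, g2, g3, g4, g5⟩
    refine ⟨E, g1, g2, g3, g4, ?_⟩
    obtain ⟨a, b, hp⟩ := pm_of_two g3
    obtain ⟨hm, hl⟩ := log_md g2
    have k0 : 1 ≤ cond E := (cond_bounds g2 hp).2.2
    have hc0 : 0 < cond E := by linarith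
    have k1 := (disc_sum g2 hp).1
    have hD : 0 ≤ Real.log (nn (AA E)) := Real.log_nonneg (one_le_nn _)
    rw [← Real.log_le_log_iff (by positivity) hm, Real.log_mul hT0.ne' (by positivity),
      Real.log_pow, hl]
    push_cast
    linarith
  have h3 : ((HiF K (Real.log T / 12) X).ncard : ℝ) ≤ (Big K T X).ncard := by exact_mod_cast h2
  calc min c0 ((C' ^ 4)⁻¹) * T ^ (-(1 / 6) : ℝ) * X ^ (2 / 3 : ℝ) ≤
      c0 * T ^ (-(1 / 6) : ℝ) * X ^ (2 / 3 : ℝ) := by
        refine mul_le_mul_of_nonneg_right (mul_le_mul_of_nonneg_right (min_le_left _ _) ?_) ?_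
        · positivity
        · positivity
    _ = c0 * (T ^ (-(1 / 6) : ℝ) * X ^ (2 / 3 : ℝ)) := by ring
    _ ≤ _ := h1.trans h3

end Pool.Agent.R365.SZ
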